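import Pool.Agent.H68.BB.Plc
import Pool.Agent.H68.BB.Red
import Pool.Agent.H67.KH.Krull

/-! # ES.Homot : Roitman's homotopy for weighted homogeneous systems

`scale_exists`: primitive weighted scaling of a nonzero vector at a place of `Om K`.
`homotopy`: `n` weighted homogeneous equations of positive weights in `n + 1` unknowns `u 0` (weight 1), `u 1, …, u n` with coefficients in
`K[s]`; if at `s = c` and `s = c'` all solutions over `K` have `u j = 0` for `j ≠ 0`, then there is a solution `v` over `Om K` (with `s = tt`)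
with `v 0 = 1` which specialises to `(1, 0, …, 0)` at all places over `c` and over `c'`. -/

namespace H58.ES

open H68.BB Polynomial

variable {K : Type} [Field K]

theorem mem_of_pow {π : Place K (Om K)} {z : Om K} {n : ℕ} (hn : 0 < n) (h : z ^ n ∈ π.V) : z ∈ π.V := by
  rcases π.V.mem_or_inv_mem z with h1 | h1
  · exact h1
  · by_contra hz
    have hz0 : z ≠ 0 := by
      rintro rfl
      exact hz π.V.zero_mem
    have := π.isLocal
    have h2 : Rd π.V π.φ z⁻¹ 0 := Rd.inv_zero hz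
    have h3 : Rd π.V π.φ ((z⁻¹) ^ n) (0 ^ n) := h2.pow n
    rw [zero_pow (by omega)] at h3
    have h4 := h3.mul (Rd.of_mem (φ := π.φ) h)
    rw [inv_pow, inv_mul_cancel₀ (pow_ne_zero n hz0), zero_mul] at h4
    exact one_ne_zero (Rd.one.unique h4)

/-- primitive weighted scaling -/
theorem scale_exists [IsAlgClosed K] (π : Place K (Om K)) {ι : Type} [Fintype ι] (d : ι → ℕ) (hd : ∀ j, 0 < d j)
    (u : ι → Om K) (hu : u ≠ 0) :
    ∃ c : Om K, c ≠ 0 ∧ ∃ u' : ι → K, u' ≠ 0 ∧ ∀ j, Rd π.V π.φ (c ^ d j * u j) (u' j) := by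
  classical
  set D : ℕ := ∏ j, d j with hD
  have hD0 : 0 < D := Finset.prod_pos fun j _ => hd j
  have hdvd : ∀ j, d j ∣ D := fun j => Finset.dvd_prod_of_mem d (Finset.mem_univ j)
  have hq : ∀ j, 0 < D / d j := fun j => Nat.div_pos (Nat.le_of_dvd hD0 (hdvd j)) (hd j)
  have hmul : ∀ j, d j * (D / d j) = D := fun j => Nat.mul_div_cancel' (hdvd j)
  obtain ⟨j1, hj1⟩ : ∃ j, u j ≠ 0 := by
    by_contra h
    push Not at h
    exact hu (funext h)
  have : Nonempty ι := ⟨j1⟩
  obtain ⟨j0, hj0⟩ := Finite.exists_max (fun j => π.V.valuation (u j ^ (D / d j)))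
  have hne : u j0 ^ (D / d j0) ≠ 0 := by
    intro h
    have h1 := hj0 j1
    rw [h, map_zero, le_zero_iff, map_eq_zero] at h1
    exact pow_ne_zero _ hj1 h1
  obtain ⟨c, hc⟩ := IsAlgClosed.exists_pow_nat_eq (u j0 ^ (D / d j0))⁻¹ hD0
  have hc0 : c ≠ 0 := by
    rintro rfl
    rw [zero_pow (by omega)] at hc
    exact inv_ne_zero hne hc.symm
  have hpow : ∀ j, (c ^ d j * u j) ^ (D / d j) = u j ^ (D / d j) / u j0 ^ (D / d j0) := by
    intro j
    rw [mul_pow, ← pow_mul, hmul, hc, div_eq_mul_inv, mul_comm]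
  have hmem : ∀ j, c ^ d j * u j ∈ π.V := by
    intro j
    apply mem_of_pow (hq j)
    rw [hpow, ← ValuationSubring.valuation_le_one_iff, map_div₀]
    exact div_le_one_of_le₀ (hj0 j) (by simp)
  refine ⟨c, hc0, fun j => π.φ ⟨_, hmem j⟩, ?_, fun j => Rd.of_mem (hmem j)⟩
  intro h
  have h1 : Rd π.V π.φ (c ^ d j0 * u j0) 0 := by
    have := congrFun h j0
    exact ⟨hmem j0, this⟩
  have h2 := h1.pow (D / d j0)
  rw [hpow, div_self hne, zero_pow (by have := hq j0; omega)] at h2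
  exact one_ne_zero (Rd.one.unique h2)

/-- value at `s = tt` -/
noncomputable def evT {ι : Type} (u : ι → Om K) (G : MvPolynomial ι K[X]) : Om K :=
  MvPolynomial.eval₂ (Polynomial.aeval (tt K) : K[X] →ₐ[K] Om K).toRingHom u G

/-- value at `s = c` -/
noncomputable def evC {ι : Type} (c : K) (u : ι → K) (G : MvPolynomial ι K[X]) : K :=
  MvPolynomial.eval₂ (Polynomial.evalRingHom c) u G

theorem rd_aeval_tt {π : Place K (Om K)} {c : K} (hc : Rd π.V π.φ (tt K) c) (p : K[X]) :
    Rd π.V π.φ (Polynomial.aeval (tt K) p) (p.eval c) := by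
  induction p using Polynomial.induction_on' with
  | add p q hp hq => rw [map_add, eval_add]; exact hp.add hq
  | monomial n a =>
    rw [aeval_monomial, eval_monomial]
    exact Rd.mul (π.const a : Rd π.V π.φ (algebraMap K (Om K) a) a) (hc.pow n)

theorem rd_ev {π : Place K (Om K)} {c : K} (hc : Rd π.V π.φ (tt K) c) {ι : Type} {u : ι → Om K} {u' : ι → K}
    (hu : ∀ j, Rd π.V π.φ (u j) (u' j)) (G : MvPolynomial ι K[X]) : Rd π.V π.φ (evT u G) (evC c u' G) := by
  unfold evT evC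
  induction G using MvPolynomial.induction_on with
  | C p => rw [MvPolynomial.eval₂_C, MvPolynomial.eval₂_C]; exact rd_aeval_tt hc p
  | add p q hp hq => rw [MvPolynomial.eval₂_add, MvPolynomial.eval₂_add]; exact hp.add hq
  | mul_X p n hp => rw [MvPolynomial.eval₂_mul, MvPolynomial.eval₂_mul, MvPolynomial.eval₂_X, MvPolynomial.eval₂_X]; exact hp.mul (hu n)

theorem evT_scale {ι : Type} {d : ι → ℕ} {e : ℕ} {G : MvPolynomial ι K[X]}
    (hG : MvPolynomial.IsWeightedHomogeneous d G e) (c : Om K) (u : ι → Om K) :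
    evT (fun j => c ^ d j * u j) G = c ^ e * evT u G := by
  classical
  unfold evT
  rw [MvPolynomial.eval₂_eq, MvPolynomial.eval₂_eq, Finset.mul_sum]
  refine Finset.sum_congr rfl fun m hm => ?_
  have h1 : Finsupp.weight d m = e := hG (MvPolynomial.mem_support_iff.1 hm)
  rw [Finsupp.weight_apply, Finsupp.sum] at h1
  have h2 : ∏ i ∈ m.support, (c ^ d i * u i) ^ m i = c ^ e * ∏ i ∈ m.support, u i ^ m i := by
    simp only [mul_pow]
    rw [Finset.prod_mul_distrib, ← h1, ← Finset.prod_pow_eq_pow_sum]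
    congr 1
    refine Finset.prod_congr rfl fun i _ => ?_
    rw [smul_eq_mul, mul_comm (m i), pow_mul]
  rw [h2]
  ring

theorem evC_scale {ι : Type} {d : ι → ℕ} {e : ℕ} {G : MvPolynomial ι K[X]}
    (hG : MvPolynomial.IsWeightedHomogeneous d G e) (s : K) (c : K) (u : ι → K) :
    evC s (fun j => c ^ d j * u j) G = c ^ e * evC s u G := by
  classical
  unfold evC
  rw [MvPolynomial.eval₂_eq, MvPolynomial.eval₂_eq, Finset.mul_sum]
  refine Finset.sum_congr rfl fun m hm => ?_
  have h1 : Finsupp.weight d m = e := hG (MvPolynomial.mem_support_iff.1 hm)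
  rw [Finsupp.weight_apply, Finsupp.sum] at h1
  have h2 : ∏ i ∈ m.support, (c ^ d i * u i) ^ m i = c ^ e * ∏ i ∈ m.support, u i ^ m i := by
    simp only [mul_pow]
    rw [Finset.prod_mul_distrib, ← h1, ← Finset.prod_pow_eq_pow_sum]
    congr 1
    refine Finset.prod_congr rfl fun i _ => ?_
    rw [smul_eq_mul, mul_comm (m i), pow_mul]
  rw [h2]
  ring

theorem homotopy [IsAlgClosed K] {n : ℕ} (d : Fin (n + 1) → ℕ) (hd : ∀ j, 0 < d j) (hd0 : d 0 = 1)
    (e : Fin n → ℕ) (he : ∀ i, 0 < e i) (G : Fin n → MvPolynomial (Fin (n + 1)) K[X])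
    (hG : ∀ i, MvPolynomial.IsWeightedHomogeneous d (G i) (e i)) (S : Set K) {c0 : K} (hc0 : c0 ∈ S)
    (hS : ∀ c ∈ S, ∀ u : Fin (n + 1) → K, (∀ i, evC c u (G i) = 0) → ∀ j, j ≠ 0 → u j = 0) :
    ∃ v : Fin (n + 1) → Om K, v 0 = 1 ∧ (∀ i, evT v (G i) = 0) ∧
      ∀ c ∈ S, ∀ π : Place K (Om K), Rd π.V π.φ (tt K) c → ∀ j, j ≠ 0 → Rd π.V π.φ (v j) 0 := by
  classical
  obtain ⟨u, hu0, hu⟩ := H67.KH.krull (K := Om K)
    (fun i => MvPolynomial.map (Polynomial.aeval (tt K) : K[X] →ₐ[K] Om K).toRingHom (G i)) (by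
      intro i
      rw [MvPolynomial.eval_map]
      have h1 := evT_scale (hG i) 0 (0 : Fin (n + 1) → Om K)
      rw [zero_pow (by have := he i; omega), zero_mul] at h1
      have h2 : (fun j => (0 : Om K) ^ d j * (0 : Fin (n + 1) → Om K) j) = 0 := by
        funext j
        simp
      rw [h2] at h1
      exact h1)
  have hu' : ∀ i, evT u (G i) = 0 := by
    intro i
    have := hu i
    rw [MvPolynomial.eval_map] at this
    exact this
  -- at every place over `S` the vector `u` is up to scaling `(unit, 0, …, 0)`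
  have key : ∀ c ∈ S, ∀ π : Place K (Om K), Rd π.V π.φ (tt K) c → u 0 ≠ 0 ∧
      ∀ j, j ≠ 0 → Rd π.V π.φ (u j / u 0 ^ d j) 0 := by
    intro c hc π hπ
    obtain ⟨l, hl, w, hw0, hw⟩ := scale_exists π d hd u hu0
    have h1 : ∀ i, evC c w (G i) = 0 := by
      intro i
      have h2 := rd_ev hπ hw (G i)
      rw [evT_scale (hG i), hu' i, mul_zero] at h2
      exact (h2.unique Rd.zero)
    have h3 := hS c hc w h1
    have h4 : w 0 ≠ 0 := by
      intro h
      apply hw0
      funext j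
      by_cases hj : j = 0
      · rw [hj, h]; rfl
      · exact h3 j hj
    have h5 : l ^ d 0 * u 0 ≠ 0 := (hw 0).ne_zero h4
    have h6 : u 0 ≠ 0 := right_ne_zero_of_mul h5
    refine ⟨h6, fun j hj => ?_⟩
    have := π.isLocal
    have h7 := (hw j).div ((hw 0).pow (d j)) (pow_ne_zero _ h4)
    rw [h3 j hj, zero_div, hd0, pow_one, mul_pow, mul_div_mul_left _ _ (pow_ne_zero _ hl)] at h7
    exact h7
  obtain ⟨π0, h0, h0'⟩ := place_exists K c0
  have hu00 : u 0 ≠ 0 := (key c0 hc0 π0 ⟨h0, h0'⟩).1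
  refine ⟨fun j => u j / u 0 ^ d j, ?_, ?_, ?_⟩
  · simp [hd0, hu00]
  · intro i
    have h1 := evT_scale (hG i) (u 0)⁻¹ u
    rw [hu' i, mul_zero] at h1
    rw [← h1]
    congr 1
    funext j
    rw [div_eq_mul_inv, inv_pow, mul_comm]
  · intro c hc π hπ j hj
    exact (key c hc π hπ).2 j hj

end H58.ES
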